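import Mathlib
import Pool.Agent.ClosedPlane.Compact
import Pool.Agent.ClosedPlane.Core

/-!
# The closed chromatic numbers of the plane

`u₂` is the least number of closed unit-distance-free sets that cover the Euclidean plane, and
`v₂` is the least number of pairwise congruent closed unit-distance-free sets that cover it.
We prove that both numbers are equal to `7`.
-/

set_option autoImplicit false

namespace Pool.Agent.Results.MP_d6af2b_co.ClosedNumbers

/-- the Euclidean plane -/
abbrev Plane := EuclideanSpace ℝ (Fin 2)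

/-- no two points of `S` are at distance exactly one -/
def UnitDistanceFree (S : Set Plane) : Prop := ∀ x ∈ S, ∀ y ∈ S, dist x y ≠ 1

/-- the plane is a union of `k` closed unit-distance-free sets -/
def ClosedCover (k : ℕ) : Prop :=
  ∃ A : Fin k → Set Plane, (∀ i, IsClosed (A i)) ∧ (∀ i, UnitDistanceFree (A i)) ∧
    (⋃ i, A i) = Set.univ

/-- the plane is a union of `k` pairwise congruent closed unit-distance-free sets -/
def CongruentClosedCover (k : ℕ) : Prop :=
  ∃ A : Fin k → Set Plane, (∀ i, IsClosed (A i)) ∧ (∀ i, UnitDistanceFree (A i)) ∧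
    (⋃ i, A i) = Set.univ ∧ ∀ i j, ∃ e : Plane ≃ᵢ Plane, e '' A i = A j

/-- the closed chromatic number of the plane -/
noncomputable def u₂ : ℕ := sInf {k | ClosedCover k}

/-- the least number of pairwise congruent closed unit-distance-free sets covering the plane -/
noncomputable def v₂ : ℕ := sInf {k | CongruentClosedCover k}

/-- a cover by at most six closed unit-distance-free sets does not exist -/
lemma no_cover {k : ℕ} (hk : k ≤ 6) : ¬ ClosedCover k := by
  rintro ⟨A, hcl, huf, hcov⟩
  let B : Fin 6 → Set Plane := fun i => if h : i.1 < k then A ⟨i.1, h⟩ else ∅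
  have hB1 : ∀ i, IsClosed (B i) := by
    intro i
    by_cases h : i.1 < k
    · simp only [B, h, dif_pos]; exact hcl _
    · simp only [B, h, dif_neg, not_false_eq_true]; exact isClosed_empty
  have hB2 : ∀ i, Pool.Agent.ClosedPlane.UnitFree (B i) := by
    intro i
    by_cases h : i.1 < k
    · simp only [B, h, dif_pos]; exact huf _
    · simp only [B, h, dif_neg, not_false_eq_true]
      intro x hx; exact absurd hx (Set.notMem_empty x)
  have hB3 : (⋃ i, B i) = Set.univ := by
    rw [Set.eq_univ_iff_forall]
    intro x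
    have hx : x ∈ ⋃ i, A i := by rw [hcov]; trivial
    obtain ⟨i, hi⟩ := Set.mem_iUnion.1 hx
    refine Set.mem_iUnion.2 ⟨⟨i.1, lt_of_lt_of_le i.2 hk⟩, ?_⟩
    have : (⟨i.1, lt_of_lt_of_le i.2 hk⟩ : Fin 6).1 < k := i.2
    simp only [B, this, dif_pos]
    exact hi
  obtain ⟨c, η, h1, h2, h3⟩ := Pool.Agent.ClosedPlane.exists_good B hB1 hB2 hB3
  exact Pool.Agent.ClosedPlane.no_good c η h1 h2 h3

lemma cover_of_congruent {k : ℕ} (h : CongruentClosedCover k) : ClosedCover k := by
  obtain ⟨A, h1, h2, h3, _⟩ := h
  exact ⟨A, h1, h2, h3⟩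

/-- **Theorem.** The closed chromatic number of the plane is `7`, and `7` is also the least number
of pairwise congruent closed unit-distance-free sets that cover the plane; in particular the two
numbers `u₂` and `v₂` are equal. The two numbers are minima of nonempty sets. -/
theorem result : u₂ = 7 ∧ v₂ = 7 ∧ u₂ = v₂ ∧ ClosedCover 7 ∧ CongruentClosedCover 7 ∧
    ∀ k ≤ 6, ¬ ClosedCover k := by
  have hv : CongruentClosedCover 7 := by
    obtain ⟨A, h1, h2, h3, h4⟩ := Pool.Agent.ClosedPlane.exists_seven
    exact ⟨A, h1, h2, h3, h4⟩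
  have hu : ClosedCover 7 := cover_of_congruent hv
  have key : ∀ P : ℕ → Prop, P 7 → (∀ k ≤ 6, ¬ P k) → sInf {k | P k} = 7 := by
    intro P h7 h6
    apply le_antisymm
    · exact Nat.sInf_le h7
    · by_contra hc
      push Not at hc
      have hmem : sInf {k | P k} ∈ {k | P k} := Nat.sInf_mem ⟨7, h7⟩
      exact h6 _ (by omega) hmem
  have e1 : u₂ = 7 := key _ hu (fun k hk => no_cover hk)
  have e2 : v₂ = 7 := key _ hv (fun k hk h => no_cover hk (cover_of_congruent h))
  exact ⟨e1, e2, by rw [e1, e2], hu, hv, fun k hk => no_cover hk⟩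

end Pool.Agent.Results.MP_d6af2b_co.ClosedNumbers
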