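import Mathlib
import Pool.Agent.RadPD.GT

/-!
# Arbitrary covers and Lebesgue measurable covers of the plane

`t₂` is the chromatic number of the plane, `m₂` is the least number of Lebesgue measurable
unit-distance-free sets that cover the plane. We prove that `t₂ = m₂`. More generally: a colouring
of the plane with finitely many colours that respects any system of forbidden distances between the
colours can be replaced by one with Lebesgue measurable colour classes.
-/

set_option autoImplicit false

namespace Pool.Agent.Results.MP_d6af2b_co.MeasurableTransfer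

open MeasureTheory

/-- the Euclidean plane -/
abbrev Plane := EuclideanSpace ℝ (Fin 2)

/-- no two points of `S` are at distance exactly one -/
def UnitDistanceFree (S : Set Plane) : Prop := ∀ x ∈ S, ∀ y ∈ S, dist x y ≠ 1

/-- the plane is a union of `k` unit-distance-free sets -/
def Cover (k : ℕ) : Prop :=
  ∃ A : Fin k → Set Plane, (∀ i, UnitDistanceFree (A i)) ∧ (⋃ i, A i) = Set.univ

/-- the plane is a union of `k` Lebesgue measurable unit-distance-free sets -/
def MeasurableCover (k : ℕ) : Prop :=
  ∃ A : Fin k → Set Plane, (∀ i, NullMeasurableSet (A i) volume) ∧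
    (∀ i, UnitDistanceFree (A i)) ∧ (⋃ i, A i) = Set.univ

/-- the chromatic number of the plane -/
noncomputable def t₂ : ℕ := sInf {k | Cover k}

/-- the measurable chromatic number of the plane -/
noncomputable def m₂ : ℕ := sInf {k | MeasurableCover k}

/-- the general transference theorem for the Euclidean plane -/
theorem transfer (k : ℕ) (D : Fin k → Fin k → Set ℝ) (hD : ∀ i j, ∀ d ∈ D i j, 0 < d)
    (h : ∃ f : Plane → Fin k, ∀ x y, dist x y ∉ D (f x) (f y)) :
    ∃ f : Plane → Fin k, (∀ i, NullMeasurableSet (f ⁻¹' {i}) volume) ∧
      ∀ x y, dist x y ∉ D (f x) (f y) := by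
  obtain ⟨f, hf⟩ := h
  let e : ℂ ≃ₗᵢ[ℝ] Plane := Complex.orthonormalBasisOneI.repr
  have hd : ∀ z w : ℂ, ‖z - w‖ = dist (e z) (e w) := by
    intro z w
    rw [e.dist_map, dist_eq_norm]
  obtain ⟨g, hg1, hg2⟩ := Pool.Agent.RadPD.transference D hD (fun z => f (e z)) (fun z w => by
    rw [hd]; exact hf _ _)
  refine ⟨fun x => g (e.symm x), fun i => ?_, fun x y => ?_⟩
  · exact (hg1 i).preimage e.symm.measurePreserving.quasiMeasurePreserving
  · have h1 := hg2 (e.symm x) (e.symm y)
    rw [hd, e.apply_symm_apply, e.apply_symm_apply] at h1
    exact h1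

theorem cover_iff (k : ℕ) : Cover k ↔ MeasurableCover k := by
  classical
  constructor
  · rintro ⟨A, hA, hcov⟩
    have hc : ∀ x : Plane, ∃ i, x ∈ A i := fun x => by
      have : x ∈ ⋃ i, A i := by rw [hcov]; trivial
      exact Set.mem_iUnion.1 this
    choose f hf using hc
    obtain ⟨g, hg1, hg2⟩ := transfer k (fun i j => if i = j then {1} else ∅) (by
      intro i j d hd
      by_cases h : i = j
      · simp only [h, if_true, Set.mem_singleton_iff] at hd
        rw [hd]; exact one_pos
      · simp only [h, if_false, Set.mem_empty_iff_false] at hd) ⟨f, by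
      intro x y hxy
      by_cases h : f x = f y
      · simp only [h, if_true, Set.mem_singleton_iff] at hxy
        exact hA (f y) x (h ▸ hf x) y (hf y) hxy
      · simp only [h, if_false, Set.mem_empty_iff_false] at hxy⟩
    refine ⟨fun i => g ⁻¹' {i}, hg1, ?_, ?_⟩
    · intro i x hx y hy hxy
      have h1 : g x = i := hx
      have h2 : g y = i := hy
      have h3 := hg2 x y
      simp only [h1, h2, if_true, Set.mem_singleton_iff] at h3
      exact h3 hxy
    · rw [Set.eq_univ_iff_forall]
      intro x
      exact Set.mem_iUnion.2 ⟨g x, rfl⟩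
  · rintro ⟨A, _, hA, hcov⟩
    exact ⟨A, hA, hcov⟩

/-- **Theorem.** Let `D i j` be arbitrary sets of positive real numbers, for `i, j` among `k`
colours. If the plane has a colouring with `k` colours in which no point of colour `i` is at a
distance belonging to `D i j` from a point of colour `j`, then it has such a colouring whose colour
classes are Lebesgue measurable. Consequently the plane is a union of `k` unit-distance-free sets
if and only if it is a union of `k` Lebesgue measurable unit-distance-free sets, and the chromatic
number `t₂` of the plane equals its measurable chromatic number `m₂`. -/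
theorem result :
    (∀ (k : ℕ) (D : Fin k → Fin k → Set ℝ), (∀ i j, ∀ d ∈ D i j, 0 < d) →
      (∃ f : Plane → Fin k, ∀ x y, dist x y ∉ D (f x) (f y)) →
      ∃ f : Plane → Fin k, (∀ i, NullMeasurableSet (f ⁻¹' {i}) volume) ∧
        ∀ x y, dist x y ∉ D (f x) (f y)) ∧
    (∀ k, Cover k ↔ MeasurableCover k) ∧ t₂ = m₂ := by
  refine ⟨transfer, cover_iff, ?_⟩
  unfold t₂ m₂
  congr 1
  ext k
  exact cover_iff k

end Pool.Agent.Results.MP_d6af2b_co.MeasurableTransfer
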